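import Pool.Agent.H500.ED.Stm
import Pool.Agent.H199.HC.Cls

set_option autoImplicit false

/-!
# Roots of Hecke characters (project ED of helper500, part D2)
-/

namespace Pool.Agent.H600.ED.ROOT

open NumberField IsDedekindDomain Polynomial
open Pool.Agent.H500.HC (InRay QBar ZBar TotPos)
open Pool.Agent.H500.TH (typB)
open Pool.Agent.H500.ED (IsHecke)

/-! ## roots of unity of order prime to `l` -/

section units
variable {k : Type} [Field k] (r : ZBar →+* k) {l : ℕ}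

/-- root of unity of order prime to `l` -/
def Rou (l : ℕ) (z : ZBar) : Prop := ∃ m : ℕ, 0 < m ∧ ¬ l ∣ m ∧ z ^ m = 1

theorem charP (hl : l.Prime) (hk : (l : k) = 0) : CharP k l :=
  (CharP.charP_iff_prime_eq_zero hl).2 hk

theorem cast_ne (hl : l.Prime) (hk : (l : k) = 0) {m : ℕ} (hm : ¬ l ∣ m) : (m : k) ≠ 0 := by
  have := charP hl hk
  rwa [Ne, CharP.cast_eq_zero_iff k l]

theorem rou_one (hl : l.Prime) : Rou l 1 := ⟨1, one_pos, hl.one_lt.ne' ∘ fun h => Nat.dvd_one.1 h, by simp⟩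

theorem rou_mul (hl : l.Prime) {x y : ZBar} (hx : Rou l x) (hy : Rou l y) : Rou l (x * y) := by
  obtain ⟨m, hm, hlm, h1⟩ := hx
  obtain ⟨n, hn, hln, h2⟩ := hy
  refine ⟨m * n, Nat.mul_pos hm hn, fun h => ?_, ?_⟩
  · rcases hl.dvd_mul.1 h with h | h
    · exact hlm h
    · exact hln h
  · rw [mul_pow, pow_mul, h1, one_pow, one_mul, mul_comm m n, pow_mul, h2, one_pow]

theorem rou_inv (hl : l.Prime) {x : ZBar} (hx : Rou l x) : ∃ y, Rou l y ∧ x * y = 1 := by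
  obtain ⟨m, hm, hlm, h1⟩ := hx
  refine ⟨x ^ (m - 1), ⟨m, hm, hlm, ?_⟩, ?_⟩
  · rw [← pow_mul, mul_comm, pow_mul, h1, one_pow]
  · rw [← pow_succ', Nat.sub_add_cancel hm, h1]

/-- injectivity -/
theorem rou_eq_one (hl : l.Prime) (hk : (l : k) = 0) {x : ZBar} (hx : Rou l x) (h : r x = 1) :
    x = 1 := by
  obtain ⟨m, hm, hlm, h1⟩ := hx
  by_contra hne
  have h2 : (x - 1) * ∑ i ∈ Finset.range m, x ^ i = 0 := by
    rw [mul_comm, geom_sum_mul, h1, sub_self]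
  have h3 : ∑ i ∈ Finset.range m, x ^ i = 0 := by
    rcases mul_eq_zero.1 h2 with h | h
    · exact absurd (sub_eq_zero.1 h) hne
    · exact h
  have h4 := congrArg r h3
  rw [map_sum, map_zero] at h4
  simp only [map_pow, h, one_pow, Finset.sum_const, Finset.card_range, nsmul_eq_mul, mul_one] at h4
  exact cast_ne hl hk hlm h4

theorem rou_eq (hl : l.Prime) (hk : (l : k) = 0) {x y : ZBar} (hx : Rou l x) (hy : Rou l y)
    (h : r x = r y) : x = y := by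
  obtain ⟨z, hz, hyz⟩ := rou_inv hl hy
  have h1 : x * z = 1 := by
    refine rou_eq_one r hl hk (rou_mul hl hx hz) ?_
    rw [map_mul, h, ← map_mul, hyz, map_one]
  calc x = x * (y * z) := by rw [hyz, mul_one]
    _ = (x * z) * y := by ring
    _ = y := by rw [h1, one_mul]

/-- Teichmueller lift of roots of unity -/
theorem exists_lift {m : ℕ} (hm : 0 < m) {x : k} (hx : x ^ m = 1) :
    ∃ z : ZBar, z ^ m = 1 ∧ r z = x := by
  have : NeZero m := ⟨hm.ne'⟩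
  have : NeZero (m : AlgebraicClosure ℚ) := ⟨by exact_mod_cast hm.ne'⟩
  obtain ⟨w, hw⟩ := HasEnoughRootsOfUnity.exists_primitiveRoot (AlgebraicClosure ℚ) m
  have hint : IsIntegral ℤ w := hw.isIntegral hm
  let w' : ZBar := ⟨w, hint⟩
  have hw' : IsPrimitiveRoot w' m := by
    refine IsPrimitiveRoot.of_map_of_injective (f := algebraMap ZBar (AlgebraicClosure ℚ)) ?_
      RingOfIntegers.coe_injective
    exact hw
  have h1 := X_pow_sub_one_eq_prod hm hw'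
  have h2 := congrArg (fun p => (p.map r).eval x) h1
  simp only [Polynomial.map_sub, Polynomial.map_pow, Polynomial.map_X, Polynomial.map_one,
    Polynomial.eval_sub, Polynomial.eval_pow, Polynomial.eval_X, Polynomial.eval_one, hx, sub_self,
    Polynomial.map_prod, Polynomial.map_C, Polynomial.eval_prod, Polynomial.eval_C] at h2
  obtain ⟨z, hz, hz0⟩ := Finset.prod_eq_zero_iff.1 h2.symm
  refine ⟨z, (mem_nthRootsFinset hm 1).1 hz, (sub_eq_zero.1 hz0).symm⟩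

/-- prime to `l` part -/
theorem order_prime (hl : l.Prime) (hk : (l : k) = 0) {x : k} {n : ℕ} (hn : 0 < n)
    (hx : x ^ n = 1) : ∃ m : ℕ, 0 < m ∧ ¬ l ∣ m ∧ x ^ m = 1 := by
  have := charP hl hk
  have := Fact.mk hl
  obtain ⟨a, m, hm, rfl⟩ := Nat.exists_eq_pow_mul_and_not_dvd hn.ne' l hl.ne_one
  refine ⟨m, Nat.pos_of_ne_zero fun h => hm (h ▸ dvd_zero l), hm, ?_⟩
  have h1 : (x ^ m - 1) ^ l ^ a = 0 := by
    rw [sub_pow_char_pow, one_pow, ← pow_mul, mul_comm m, hx, sub_self]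
  exact sub_eq_zero.1 ((pow_eq_zero_iff (pow_pos hl.pos a).ne').1 h1)

/-- existence of the root -/
theorem exists_root (hl : l.Prime) (hk : (l : k) = 0) {d : ℕ} (hd : 0 < d)
    {c : ZBar} {n : ℕ} (hn : 0 < n) (hc : r c ^ n = 1) :
    ∃ y ζ : ZBar, r y = 1 ∧ Rou l ζ ∧ y ^ d * ζ = c := by
  obtain ⟨m, hm, hlm, h1⟩ := order_prime hl hk hn hc
  obtain ⟨ζ, hζ, hζc⟩ := exists_lift r hm h1
  have hR : Rou l ζ := ⟨m, hm, hlm, hζ⟩
  obtain ⟨ζ', hζ', hi⟩ := rou_inv hl hR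
  obtain ⟨y0, hy0⟩ := IsAlgClosed.exists_pow_nat_eq ((c * ζ' : ZBar) : AlgebraicClosure ℚ) hd
  have hint : IsIntegral ℤ y0 := by
    refine IsIntegral.of_pow hd ?_
    rw [hy0]
    exact RingOfIntegers.isIntegral_coe _
  let y1 : ZBar := ⟨y0, hint⟩
  have hy1 : y1 ^ d = c * ζ' := RingOfIntegers.coe_injective (by
    rw [map_pow]
    exact hy0)
  have h2 : r y1 ^ d = 1 := by
    rw [← map_pow, hy1, map_mul, ← hζc, ← map_mul, hi, map_one]
  obtain ⟨w, hw, hwy⟩ := exists_lift r hd h2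
  have hww : w * w ^ (d - 1) = 1 := by rw [← pow_succ', Nat.sub_add_cancel hd, hw]
  refine ⟨y1 * w ^ (d - 1), ζ, ?_, hR, ?_⟩
  · rw [map_mul, ← hwy, ← map_mul, hww, map_one]
  · have h3 : (w ^ (d - 1)) ^ d = 1 := by rw [← pow_mul, mul_comm, pow_mul, hw, one_pow]
    rw [mul_pow, h3, mul_one, hy1, mul_assoc, mul_comm ζ' ζ, hi, mul_one]

/-- uniqueness of the root -/
theorem root_unique (hl : l.Prime) (hk : (l : k) = 0) {d : ℕ} (hd : ¬ l ∣ d)
    {c y y' ζ ζ' : ZBar} (hc : c ≠ 0) (hy : r y = 1) (hy' : r y' = 1) (hζ : Rou l ζ)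
    (hζ' : Rou l ζ') (h : y ^ d * ζ = c) (h' : y' ^ d * ζ' = c) : y = y' := by
  have h1 : r ζ = r c := by rw [← h, map_mul, map_pow, hy, one_pow, one_mul]
  have h2 : r ζ' = r c := by rw [← h', map_mul, map_pow, hy', one_pow, one_mul]
  have h3 : ζ = ζ' := rou_eq r hl hk hζ hζ' (h1.trans h2.symm)
  subst h3
  have hζ0 : ζ ≠ 0 := by
    rintro rfl
    rw [mul_zero] at h
    exact hc h.symm
  have h4 : y ^ d = y' ^ d := mul_right_cancel₀ hζ0 (h.trans h'.symm)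
  have h5 := Commute.mul_geom_sum₂ (Commute.all y y') d
  rw [h4, sub_self] at h5
  rcases mul_eq_zero.1 h5 with h6 | h6
  · exact sub_eq_zero.1 h6
  · exfalso
    have h7 := congrArg r h6
    rw [map_sum, map_zero] at h7
    simp only [map_mul, map_pow, hy, hy', one_pow, mul_one, Finset.sum_const, Finset.card_range,
      nsmul_eq_mul] at h7
    exact cast_ne hl hk hd h7

end units

/-! ## types of the restrictions -/

section types
variable {M L : Type} [Field M] [NumberField M] [Field L] [NumberField L] [Algebra M L]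

open Classical in
theorem card_fiber (τ : M →+* QBar) :
    (Finset.univ.filter fun σ : L →+* QBar => σ.comp (algebraMap M L) = τ).card =
      Module.finrank M L := by
  letI : Algebra M QBar := τ.toAlgebra
  rw [← AlgHom.card M L QBar, ← Fintype.card_coe]
  refine Fintype.card_congr ⟨fun σ => ⟨σ.1, fun x => ?_⟩, fun f => ⟨(f : L →+* QBar), ?_⟩,
    fun σ => ?_, fun f => ?_⟩
  · exact RingHom.congr_fun (Finset.mem_filter.1 σ.2).2 x
  · rw [Finset.mem_filter]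
    exact ⟨Finset.mem_univ _, RingHom.ext fun x => f.commutes x⟩
  · rfl
  · rfl

theorem typB_map (t : (L →+* QBar) → ℕ) (t' : (M →+* QBar) → ℕ)
    (ht : ∀ σ : L →+* QBar, t σ = t' (σ.comp (algebraMap M L))) (a : 𝓞 M) :
    typB t (algebraMap (𝓞 M) (𝓞 L) a) = typB t' a ^ Module.finrank M L := by
  classical
  unfold typB
  have h1 : ∀ σ : L →+* QBar, RingOfIntegers.mapRingHom σ (algebraMap (𝓞 M) (𝓞 L) a) ^ t σ =
      (fun τ : M →+* QBar => RingOfIntegers.mapRingHom τ a ^ t' τ) (σ.comp (algebraMap M L)) := by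
    intro σ
    rw [ht σ]
    rfl
  rw [Finset.prod_congr rfl fun σ _ => h1 σ,
    Finset.prod_comp (fun τ : M →+* QBar => RingOfIntegers.mapRingHom τ a ^ t' τ)
      (fun σ : L →+* QBar => σ.comp (algebraMap M L))]
  have h2 : Finset.univ.image (fun σ : L →+* QBar => σ.comp (algebraMap M L)) = Finset.univ := by
    rw [Finset.eq_univ_iff_forall]
    intro τ
    have h3 : 0 < (Finset.univ.filter fun σ : L →+* QBar =>
        σ.comp (algebraMap M L) = τ).card := by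
      rw [card_fiber]
      exact Module.finrank_pos
    obtain ⟨σ, hσ⟩ := Finset.card_pos.1 h3
    exact Finset.mem_image.2 ⟨σ, Finset.mem_univ _, (Finset.mem_filter.1 hσ).2⟩
  rw [h2, ← Finset.prod_pow]
  refine Finset.prod_congr rfl fun τ _ => ?_
  rw [card_fiber]

theorem r_typB {k : Type} [Field k] (r : ZBar →+* k) {l : ℕ} (hk : (l : k) = 0)
    (t : (L →+* QBar) → ℕ) {x : 𝓞 L} (hx : (l : 𝓞 L) ∣ x - 1) : r (typB t x) = 1 := by
  obtain ⟨b, hb⟩ := hx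
  have hx1 : x = 1 + l * b := by rw [← hb]; ring
  unfold typB
  rw [map_prod]
  refine Finset.prod_eq_one fun σ _ => ?_
  rw [map_pow, hx1, map_add, map_mul, map_one, map_natCast, map_add, map_mul, map_one, map_natCast,
    hk, zero_mul, add_zero, one_pow]

end types

/-! ## the root of a Hecke character -/

theorem span_ne_top {K : Type} [Field K] [NumberField K] {k : Type} [Field k] (r : ZBar →+* k)
    {l : ℕ} (hk : (l : k) = 0) : Ideal.span {(l : 𝓞 K)} ≠ ⊤ := by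
  intro h
  rw [Ideal.span_singleton_eq_top] at h
  obtain ⟨τ⟩ : Nonempty (K →+* QBar) := inferInstance
  have h1 := (h.map (RingOfIntegers.mapRingHom τ)).map r
  rw [map_natCast, map_natCast, hk] at h1
  exact not_isUnit_zero h1

theorem main : Pool.Agent.H500.ED.S_ROOT := by
  intro M L _ _ _ _ _ N e l t t' ψ k _ r hN hl hlN hk hld hψ ht
  classical
  have hNl : 0 < N * l := Nat.mul_pos (by omega) hl.pos
  have hd : 0 < Module.finrank M L := Module.finrank_pos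
  obtain ⟨h, R, hh, -, hR⟩ := Pool.Agent.H199.HC.Cls.main L (N ^ e * l) (Nat.mul_pos
    (pow_pos (by omega) e) hl.pos)
  set I : Ideal (𝓞 M) := Ideal.span {((N * l : ℕ) : 𝓞 M)} with hI
  have hIne : I ≠ ⊤ := by
    intro h
    refine span_ne_top r hk (K := M) (eq_top_mono ?_ h)
    rw [hI, Ideal.span_singleton_le_span_singleton]
    push_cast
    exact Dvd.intro_left _ rfl
  -- extension of ideals
  have hcop : ∀ 𝔞 : Ideal (𝓞 M), IsCoprime 𝔞 I → ∀ n : ℕ, n ∣ (N * l) ^ (e + 1) →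
      IsCoprime (𝔞.map (algebraMap (𝓞 M) (𝓞 L))) (Ideal.span {(n : 𝓞 L)}) := by
    intro 𝔞 h𝔞 n hn
    have h1 := (h𝔞.pow_right (n := e + 1)).map (Ideal.mapHom (algebraMap (𝓞 M) (𝓞 L)))
    rw [Ideal.isCoprime_iff_sup_eq] at h1 ⊢
    refine eq_top_mono (sup_le_sup_left ?_ _) h1
    rw [hI, Ideal.span_singleton_pow]
    change Ideal.map _ _ ≤ _
    rw [Ideal.map_span, Set.image_singleton, Ideal.span_singleton_le_span_singleton, map_pow,
      map_natCast]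
    exact_mod_cast Nat.cast_dvd_cast hn
  have hbot : ∀ 𝔞 : Ideal (𝓞 M), IsCoprime 𝔞 I → 𝔞.map (algebraMap (𝓞 M) (𝓞 L)) ≠ ⊥ := by
    intro 𝔞 h𝔞 h0
    have h1 := hcop 𝔞 h𝔞 l ((Dvd.intro_left N rfl).trans (dvd_pow_self _ (by omega)))
    rw [h0, Ideal.isCoprime_iff_sup_eq, bot_sup_eq] at h1
    exact span_ne_top r hk h1
  have hne : ∀ 𝔞 : Ideal (𝓞 M), IsCoprime 𝔞 I → ψ (𝔞.map (algebraMap (𝓞 M) (𝓞 L))) ≠ 0 := by
    intro 𝔞 h𝔞
    refine (hψ.cop _ (hbot 𝔞 h𝔞)).2 (hcop 𝔞 h𝔞 N ?_)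
    exact (Dvd.intro l rfl).trans (dvd_pow_self _ (by omega))
  have hex : ∀ 𝔞 : Ideal (𝓞 M), IsCoprime 𝔞 I → ∃ y : ZBar, r y = 1 ∧ ∃ ζ : ZBar, Rou l ζ ∧
      y ^ Module.finrank M L * ζ = ψ (𝔞.map (algebraMap (𝓞 M) (𝓞 L))) := by
    intro 𝔞 h𝔞
    obtain ⟨⟨x, hx, hxa⟩, -⟩ := hR (𝔞.map (algebraMap (𝓞 M) (𝓞 L))) (hbot 𝔞 h𝔞)
      (hcop 𝔞 h𝔞 _ (by
        rw [mul_pow]
        exact Nat.mul_dvd_mul (pow_dvd_pow N (Nat.le_succ e)) (dvd_pow_self l (by omega))))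
    have h1 : r (ψ (𝔞.map (algebraMap (𝓞 M) (𝓞 L)))) ^ h = 1 := by
      rw [← map_pow, ← map_pow, hxa, hψ.typ x ⟨hx.1, ?_, hx.2.2⟩]
      · exact r_typB r hk t (dvd_trans (by push_cast; exact Dvd.intro_left _ rfl) hx.2.1)
      · exact dvd_trans (by push_cast; exact Dvd.intro _ rfl) hx.2.1
    obtain ⟨y, ζ, hy, hζ, hyc⟩ := exists_root r hl hk hd hh h1
    exact ⟨y, hy, ζ, hζ, hyc⟩
  choose! y hy ζ hζ hyc using hex
  have huniq : ∀ 𝔞 : Ideal (𝓞 M), IsCoprime 𝔞 I → ∀ z w : ZBar, r z = 1 → Rou l w →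
      z ^ Module.finrank M L * w = ψ (𝔞.map (algebraMap (𝓞 M) (𝓞 L))) → y 𝔞 = z :=
    fun 𝔞 h𝔞 z w hz hw hzw =>
      root_unique r hl hk hld (hne 𝔞 h𝔞) (hy 𝔞 h𝔞) hz (hζ 𝔞 h𝔞) hw (hyc 𝔞 h𝔞) hzw
  let η : Ideal (𝓞 M) →*₀ ZBar :=
    { toFun := fun 𝔞 => if IsCoprime 𝔞 I then y 𝔞 else 0
      map_zero' := by
        rw [if_neg]
        intro h0
        rw [Ideal.zero_eq_bot, Ideal.isCoprime_iff_sup_eq, bot_sup_eq] at h0
        exact hIne h0
      map_one' := by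
        have h1 : IsCoprime (1 : Ideal (𝓞 M)) I := isCoprime_one_left
        rw [if_pos h1]
        refine huniq 1 h1 1 1 (map_one r) (rou_one hl) ?_
        rw [Ideal.one_eq_top, Ideal.map_top, ← Ideal.one_eq_top, map_one, one_pow, mul_one]
      map_mul' := by
        intro 𝔞 𝔟
        by_cases ha : IsCoprime 𝔞 I
        · by_cases hb : IsCoprime 𝔟 I
          · rw [if_pos (ha.mul_left hb), if_pos ha, if_pos hb]
            refine huniq _ (ha.mul_left hb) _ (ζ 𝔞 * ζ 𝔟) ?_ (rou_mul hl (hζ 𝔞 ha) (hζ 𝔟 hb)) ?_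
            · rw [map_mul, hy 𝔞 ha, hy 𝔟 hb, one_mul]
            · rw [Ideal.map_mul, map_mul, ← hyc 𝔞 ha, ← hyc 𝔟 hb]
              ring
          · rw [if_neg (fun h => hb h.of_mul_left_right), if_neg hb, mul_zero]
        · rw [if_neg (fun h => ha h.of_mul_left_left), if_neg ha, zero_mul] }
  have hη : ∀ 𝔞 : Ideal (𝓞 M), IsCoprime 𝔞 I → η 𝔞 = y 𝔞 := fun 𝔞 h𝔞 => if_pos h𝔞
  have hη0 : ∀ 𝔞 : Ideal (𝓞 M), ¬ IsCoprime 𝔞 I → η 𝔞 = 0 := fun 𝔞 h𝔞 => if_neg h𝔞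
  refine ⟨η, ⟨?_, ?_⟩, ?_⟩
  · intro 𝔞 h𝔞
    rw [← hI]
    by_cases hc : IsCoprime 𝔞 I
    · refine ⟨fun _ => hc, fun _ h0 => ?_⟩
      have h1 := hy 𝔞 hc
      rw [← hη 𝔞 hc, h0, map_zero] at h1
      exact zero_ne_one h1
    · exact ⟨fun h => absurd (hη0 𝔞 hc) h, fun h => absurd h hc⟩
  · intro a ha
    obtain ⟨ha0, ⟨b, hb⟩, hpos⟩ := ha
    have hb' : a - 1 = (N : 𝓞 M) ^ (e + 1) * l * b := by rw [hb]; push_cast; ring
    have hc : IsCoprime (Ideal.span {a}) I := by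
      rw [hI, Ideal.isCoprime_span_singleton_iff]
      refine ⟨1, -((N : 𝓞 M) ^ e * b), ?_⟩
      have h1 : a = 1 + (N : 𝓞 M) ^ (e + 1) * l * b := by rw [← hb']; ring
      rw [h1]
      push_cast
      ring
    rw [hη _ hc]
    refine huniq _ hc _ 1 (r_typB r hk t' ?_) (rou_one hl) ?_
    · exact ⟨(N : 𝓞 M) ^ (e + 1) * b, by rw [hb']; ring⟩
    · rw [Ideal.map_span, Set.image_singleton, hψ.typ (algebraMap (𝓞 M) (𝓞 L) a) ⟨?_, ?_, ?_⟩,
        typB_map t t' ht, mul_one]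
      · intro h0
        refine ha0 (FaithfulSMul.algebraMap_injective (𝓞 M) (𝓞 L) ?_)
        rw [h0, map_zero]
      · refine ⟨algebraMap (𝓞 M) (𝓞 L) ((N : 𝓞 M) * l * b), ?_⟩
        rw [← map_one (algebraMap (𝓞 M) (𝓞 L)), ← map_sub, hb', ← map_natCast
          (algebraMap (𝓞 M) (𝓞 L)), ← map_mul]
        congr 1
        push_cast
        ring
      · intro τ
        exact hpos (τ.comp (algebraMap M L))
  · intro 𝔞 h𝔞
    rw [hη 𝔞 h𝔞]
    refine ⟨hy 𝔞 h𝔞, ζ 𝔞, ?_⟩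
    obtain ⟨m, hm, hlm, hm1⟩ := hζ 𝔞 h𝔞
    exact ⟨m, hm, hlm, hm1, hyc 𝔞 h𝔞⟩

end Pool.Agent.H600.ED.ROOT
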